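import Pool.Agent.N77.GP.Basic
import Pool.Agent.N77.GL.Amg

/-!
# Graph products: retractions, stars and free kernels
-/

set_option autoImplicit false

namespace Pool.Agent.N77.GK

open Pool.Agent.Y110.FJ
open Pool.Agent.N77.GP

section ker

/-- the kernel of a homomorphism which is injective on the two factors of an amalgam is free -/
theorem ker_free_in {Γ P : Type} [Group Γ] [Group P] (A B K : Subgroup Γ)
    (hKA : K ≤ A) (hKB : K ≤ B)
    (univ : ∀ (H : Type) [Group H] (f : A →* H) (g : B →* H),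
      (∀ (c : Γ) (hc : c ∈ K), f ⟨c, hKA hc⟩ = g ⟨c, hKB hc⟩) →
      ∃ h : Γ →* H, (∀ a : A, h a = f a) ∧ ∀ b : B, h b = g b)
    (f : Γ →* P) (hfA : ∀ a ∈ A, f a = 1 → a = 1) (hfB : ∀ b ∈ B, f b = 1 → b = 1) :
    IsFreeGroup ↥(f.ker ⊓ (A ⊔ B)) := by
  have ham : Amg (A.subgroupOf (A ⊔ B)) (B.subgroupOf (A ⊔ B)) (K.subgroupOf (A ⊔ B)) := by
    refine ⟨?_, ?_, ?_, ?_⟩
    · intro x hx
      exact Subgroup.mem_subgroupOf.2 (hKA (Subgroup.mem_subgroupOf.1 hx))
    · intro x hx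
      exact Subgroup.mem_subgroupOf.2 (hKB (Subgroup.mem_subgroupOf.1 hx))
    · rw [← Subgroup.subgroupOf_sup (le_sup_left : A ≤ A ⊔ B) (le_sup_right : B ≤ A ⊔ B)]
      exact Subgroup.subgroupOf_self _
    · intro H _ f' g' hfg
      obtain ⟨h, h1, h2⟩ := univ H
        (f'.comp (Subgroup.subgroupOfEquivOfLe (le_sup_left : A ≤ A ⊔ B)).symm.toMonoidHom)
        (g'.comp (Subgroup.subgroupOfEquivOfLe (le_sup_right : B ≤ A ⊔ B)).symm.toMonoidHom)
        (fun c hc => hfg ⟨c, (le_sup_left : A ≤ A ⊔ B) (hKA hc)⟩ (Subgroup.mem_subgroupOf.2 hc))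
      refine ⟨h.comp (A ⊔ B).subtype, fun a => ?_, fun b => ?_⟩
      · exact h1 ⟨a.1.1, Subgroup.mem_subgroupOf.1 a.2⟩
      · exact h2 ⟨b.1.1, Subgroup.mem_subgroupOf.1 b.2⟩
  obtain ⟨X, _, Θ, hΘ, hr⟩ := Pool.Agent.N77.GL.embed _ _ _ ham (f.comp (A ⊔ B).subtype)
    (fun a ha h => Subtype.ext (hfA a (Subgroup.mem_subgroupOf.1 ha) h))
    (fun b hb h => Subtype.ext (hfB b (Subgroup.mem_subgroupOf.1 hb) h))
  have hr' : ∀ x : ↥(f.ker ⊓ (A ⊔ B)), (Θ ⟨x.1, x.2.2⟩).right = 1 := fun x => by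
    rw [hr]
    exact x.2.1
  let g : ↥(f.ker ⊓ (A ⊔ B)) →* FreeGroup X :=
    { toFun := fun x => (Θ ⟨x.1, x.2.2⟩).left
      map_one' := by
        show (Θ 1).left = 1
        rw [map_one]
        rfl
      map_mul' := fun x y => by
        show (Θ (⟨x.1, x.2.2⟩ * ⟨y.1, y.2.2⟩)).left = _
        rw [map_mul, SemidirectProduct.mul_left, hr', map_one]
        rfl }
  have hg : Function.Injective g := by
    rw [injective_iff_map_eq_one]
    intro x hx
    have h1 : Θ ⟨x.1, x.2.2⟩ = 1 := SemidirectProduct.ext hx (hr' x)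
    have h2 : (⟨x.1, x.2.2⟩ : ↥(A ⊔ B)) = 1 := hΘ (h1.trans (map_one _).symm)
    exact Subtype.ext (congrArg (fun z : ↥(A ⊔ B) => (z : Γ)) h2)
  exact IsFreeGroup.ofMulEquiv (MonoidHom.ofInjective hg).symm

end ker

variable {V : Type} {Λ : SimpleGraph V} {A : V → Type} [∀ v, Group (A v)]

/-- the inclusion of a vertex group -/
noncomputable abbrev o (Λ : SimpleGraph V) (A : V → Type) [∀ v, Group (A v)] (v : V) :
    A v →* GrP Λ A := GrP.of Λ A v

/-- the subgroup generated by the vertex groups in `X` -/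
noncomputable def gX (Λ : SimpleGraph V) (A : V → Type) [∀ v, Group (A v)] (X : Set V) :
    Subgroup (GrP Λ A) := Subgroup.closure {x | ∃ w ∈ X, ∃ a, x = o Λ A w a}

theorem o_mem {X : Set V} {w : V} (hw : w ∈ X) (a : A w) : o Λ A w a ∈ gX Λ A X :=
  Subgroup.subset_closure ⟨w, hw, a, rfl⟩

theorem gX_le {X : Set V} {S : Subgroup (GrP Λ A)} (h1 : ∀ w ∈ X, ∀ a, o Λ A w a ∈ S) :
    gX Λ A X ≤ S := by
  rw [gX, Subgroup.closure_le]
  rintro x ⟨w, hw, a, rfl⟩
  exact h1 w hw a

theorem gX_mono {X Y : Set V} (h : X ⊆ Y) : gX Λ A X ≤ gX Λ A Y :=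
  gX_le (fun _ hw a => o_mem (h hw) a)

theorem gX_sup (X Y : Set V) : gX Λ A X ⊔ gX Λ A Y = gX Λ A (X ∪ Y) := by
  apply le_antisymm
  · exact sup_le (gX_mono Set.subset_union_left) (gX_mono Set.subset_union_right)
  · refine gX_le (fun w hw a => ?_)
    rcases hw with hw | hw
    · exact Subgroup.mem_sup_left (o_mem hw a)
    · exact Subgroup.mem_sup_right (o_mem hw a)

theorem gX_univ : gX Λ A Set.univ = ⊤ := by
  suffices h : ∀ y, y ∈ gX Λ A Set.univ by
    rw [eq_top_iff]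
    exact fun y _ => h y
  intro y
  induction y using QuotientGroup.induction_on with
  | H z =>
    induction z using Monoid.CoprodI.induction_on with
    | one => exact one_mem _
    | of w a => exact o_mem (Set.mem_univ w) a
    | mul x y hx hy =>
      rw [QuotientGroup.mk_mul]
      exact mul_mem hx hy

/-- two homomorphisms on `gX` agree if they agree on the generators -/
theorem gX_ext {X : Set V} {H : Type} [Group H] (f g : gX Λ A X →* H)
    (h1 : ∀ w (hw : w ∈ X) a, f ⟨o Λ A w a, o_mem hw a⟩ = g ⟨o Λ A w a, o_mem hw a⟩) : f = g := by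
  have key : gX Λ A X ≤ (f.eqLocus g).map (gX Λ A X).subtype :=
    gX_le (fun w hw a => ⟨⟨o Λ A w a, o_mem hw a⟩, h1 w hw a, rfl⟩)
  ext x
  obtain ⟨y, hy, hyx⟩ := key x.2
  have : y = x := Subtype.ext hyx
  rw [← this]
  exact hy

open Classical in
/-- the retraction which kills the vertex groups outside of `X` -/
noncomputable def rt (Λ : SimpleGraph V) (A : V → Type) [∀ v, Group (A v)] (X : Set V) :
    GrP Λ A →* GrP Λ A :=
  glift (fun w => if w ∈ X then o Λ A w else 1) (fun v w h a b => by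
    by_cases hv : v ∈ X
    · by_cases hw : w ∈ X
      · simp only [if_pos hv, if_pos hw]
        exact of_comm h a b
      · simp only [if_neg hw, MonoidHom.one_apply, mul_one, one_mul]
    · simp only [if_neg hv, MonoidHom.one_apply, mul_one, one_mul])

theorem rt_o {X : Set V} {w : V} (hw : w ∈ X) (a : A w) : rt Λ A X (o Λ A w a) = o Λ A w a := by
  rw [rt, glift_of, if_pos hw]

theorem rt_o' {X : Set V} {w : V} (hw : w ∉ X) (a : A w) : rt Λ A X (o Λ A w a) = 1 := by
  rw [rt, glift_of, if_neg hw, MonoidHom.one_apply]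

theorem rt_mem (X : Set V) (x : GrP Λ A) : rt Λ A X x ∈ gX Λ A X := by
  have h1 : gX Λ A Set.univ ≤ (gX Λ A X).comap (rt Λ A X) := gX_le fun w _ a => by
    show rt Λ A X (o Λ A w a) ∈ gX Λ A X
    by_cases hw : w ∈ X
    · rw [rt_o hw]
      exact o_mem hw a
    · rw [rt_o' hw]
      exact one_mem _
  rw [gX_univ] at h1
  exact h1 (Subgroup.mem_top x)

theorem rt_fix {X : Set V} {x : GrP Λ A} (hx : x ∈ gX Λ A X) : rt Λ A X x = x := by
  have h : gX Λ A X ≤ (rt Λ A X).eqLocus (MonoidHom.id _) := gX_le fun w hw a => rt_o hw a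
  exact h hx

theorem rt_rt {X Y : Set V} (h : X ⊆ Y) (x : GrP Λ A) : rt Λ A X (rt Λ A Y x) = rt Λ A X x := by
  have h1 : (rt Λ A X).comp (rt Λ A Y) = rt Λ A X := by
    refine ghom_ext fun w a => ?_
    show rt Λ A X (rt Λ A Y (o Λ A w a)) = rt Λ A X (o Λ A w a)
    by_cases hw : w ∈ Y
    · rw [rt_o hw]
    · rw [rt_o' hw, map_one, rt_o' (fun hx => hw (h hx))]
  exact DFunLike.congr_fun h1 x

theorem o_injective (v : V) : Function.Injective (o Λ A v) := by
  classical
  have h2 : Function.LeftInverse (glift (Λ := Λ) (A := A)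
      (fun w => if h : w = v then (by subst h; exact MonoidHom.id _) else (1 : A w →* A v))
      (fun u w h a b => by
        by_cases hu : u = v
        · by_cases hw : w = v
          · exact absurd (hu.trans hw.symm) h.ne
          · simp [dif_neg hw]
        · simp [dif_neg hu])) (o Λ A v) := by
    intro a
    rw [glift_of, dif_pos rfl]
    rfl
  exact h2.injective

/-- normal form in the subgroup of the star of `v` -/
theorem star_form {Y : Set V} {v : V} (hY : ∀ w ∈ Y, Λ.Adj v w) {x : GrP Λ A}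
    (hx : x ∈ gX Λ A (Y ∪ {v})) : ∃ y ∈ gX Λ A Y, ∃ a : A v, x = y * o Λ A v a := by
  rw [gX] at hx
  induction hx using Subgroup.closure_induction_right with
  | one => exact ⟨1, one_mem _, 1, by simp⟩
  | mul_right x hx y hy ih =>
    obtain ⟨z, hz, a, rfl⟩ := ih
    obtain ⟨w, hw, b, rfl⟩ := hy
    rcases hw with hw | hw
    · refine ⟨z * o Λ A w b, mul_mem hz (o_mem hw b), a, ?_⟩
      rw [mul_assoc, mul_assoc, of_comm (hY w hw)]
    · rw [Set.mem_singleton_iff] at hw
      subst hw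
      exact ⟨z, hz, a * b, by rw [map_mul, mul_assoc]⟩
  | mul_inv_cancel x hx y hy ih =>
    obtain ⟨z, hz, a, rfl⟩ := ih
    obtain ⟨w, hw, b, rfl⟩ := hy
    rcases hw with hw | hw
    · refine ⟨z * o Λ A w b⁻¹, mul_mem hz (o_mem hw _), a, ?_⟩
      rw [← map_inv, mul_assoc, mul_assoc, of_comm (hY w hw) a b⁻¹]
    · rw [Set.mem_singleton_iff] at hw
      subst hw
      exact ⟨z, hz, a * b⁻¹, by rw [map_mul, map_inv, mul_assoc]⟩

/-- the universal property of the amalgam of the subgroups of `X` and of the star of `v` -/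
theorem univ_star {X Y : Set V} {v : V} (hv : v ∉ X) (hYX : Y ⊆ X)
    (hY : ∀ w ∈ X, Λ.Adj v w → w ∈ Y) (H : Type) [Group H] (p : gX Λ A X →* H)
    (q : gX Λ A (Y ∪ {v}) →* H)
    (hpq : ∀ (c : GrP Λ A) (hc : c ∈ gX Λ A Y), p ⟨c, gX_mono hYX hc⟩ =
      q ⟨c, gX_mono Set.subset_union_left hc⟩) :
    ∃ h : GrP Λ A →* H, (∀ a : gX Λ A X, h a = p a) ∧ ∀ b : gX Λ A (Y ∪ {v}), h b = q b := by
  classical
  have mY : ∀ w, w ∈ Y → w ∈ Y ∪ {v} := fun w hw => Set.mem_union_left _ hw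
  have mv : v ∈ Y ∪ {v} := Set.mem_union_right _ rfl
  have hcY : ∀ w (hw : w ∈ Y) (a : A w), p ⟨o Λ A w a, o_mem (hYX hw) a⟩ =
      q ⟨o Λ A w a, o_mem (mY w hw) a⟩ := fun w hw a => hpq (o Λ A w a) (o_mem hw a)
  let px : ∀ w, w ∈ X → A w →* H := fun w hw =>
    p.comp ((o Λ A w).codRestrict (gX Λ A X) (fun a => o_mem hw a))
  let qx : A v →* H :=
    q.comp ((o Λ A v).codRestrict (gX Λ A (Y ∪ {v})) (fun a => o_mem mv a))
  obtain ⟨F, hFX, hFv, hF0⟩ : ∃ F : ∀ w, A w →* H,
      (∀ w (hw : w ∈ X) a, F w a = p ⟨o Λ A w a, o_mem hw a⟩) ∧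
      (∀ a, F v a = q ⟨o Λ A v a, o_mem mv a⟩) ∧ ∀ w, w ∉ X → w ≠ v → F w = 1 := by
    refine ⟨fun w => if hw : w ∈ X then px w hw else
      if h : w = v then (by subst h; exact qx) else 1, fun w hw a => ?_, fun a => ?_,
      fun w hw hwv => ?_⟩
    · simp only [dif_pos hw]
      rfl
    · simp only [dif_neg hv, dif_pos]
      rfl
    · simp only [dif_neg hw, dif_neg hwv]
  have hFvX : ∀ w (hw : w ∈ X) (h : Λ.Adj v w) (a : A v) (b : A w),
      F v a * F w b = F w b * F v a := by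
    intro w hw h a b
    rw [hFv, hFX w hw, hcY w (hY w hw h), ← map_mul, ← map_mul]
    congr 1
    exact Subtype.ext (of_comm h a b)
  have hFc : ∀ u w, Λ.Adj u w → ∀ (a : A u) (b : A w), F u a * F w b = F w b * F u a := by
    intro u w h a b
    by_cases hu : u ∈ X
    · by_cases hw : w ∈ X
      · rw [hFX u hu, hFX w hw, ← map_mul, ← map_mul]
        congr 1
        exact Subtype.ext (of_comm h a b)
      · by_cases hwv : w = v
        · subst hwv
          exact (hFvX u hu h.symm b a).symm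
        · rw [hF0 w hw hwv]
          simp
    · by_cases huv : u = v
      · subst huv
        by_cases hw : w ∈ X
        · exact hFvX w hw h a b
        · rw [hF0 w hw h.ne']
          simp
      · rw [hF0 u hu huv]
        simp
  refine ⟨glift F hFc, fun a => ?_, fun b => ?_⟩
  · have h3 : (glift F hFc).comp (gX Λ A X).subtype = p := by
      refine gX_ext _ _ (fun w hw a => ?_)
      show (glift F hFc) (o Λ A w a) = _
      rw [glift_of, hFX w hw]
    exact DFunLike.congr_fun h3 a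
  · have h3 : (glift F hFc).comp (gX Λ A (Y ∪ {v})).subtype = q := by
      refine gX_ext _ _ (fun w hw a => ?_)
      show (glift F hFc) (o Λ A w a) = _
      rw [glift_of]
      rcases hw with hw | hw
      · rw [hFX w (hYX hw), hcY w hw]
      · rw [Set.mem_singleton_iff] at hw
        subst hw
        rw [hFv]
    exact DFunLike.congr_fun h3 b

/-- the decomposition of the subgroup of `X ∪ {v}` -/
theorem star_sup {X : Set V} {v : V} :
    gX Λ A X ⊔ gX Λ A ({w | w ∈ X ∧ Λ.Adj v w} ∪ {v}) = gX Λ A (X ∪ {v}) := by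
  rw [gX_sup]
  congr 1
  ext w
  constructor
  · rintro (h | h | h)
    · exact Or.inl h
    · exact Or.inl h.1
    · exact Or.inr h
  · rintro (h | h)
    · exact Or.inl h
    · exact Or.inr (Or.inr h)

/-- the kernel of the map to the product of the retractions to `X` and to `v` is free -/
theorem free_step {X : Set V} {v : V} (hv : v ∉ X) :
    IsFreeGroup ↥(((rt Λ A X).prod (rt Λ A {v})).ker ⊓ gX Λ A (X ∪ {v})) := by
  have hYX : {w | w ∈ X ∧ Λ.Adj v w} ⊆ X := fun w hw => hw.1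
  have hYv : ∀ w ∈ {w | w ∈ X ∧ Λ.Adj v w}, Λ.Adj v w := fun w hw => hw.2
  rw [← star_sup (Λ := Λ) (A := A) (X := X) (v := v)]
  refine ker_free_in (gX Λ A X) (gX Λ A ({w | w ∈ X ∧ Λ.Adj v w} ∪ {v}))
    (gX Λ A {w | w ∈ X ∧ Λ.Adj v w}) (gX_mono hYX) (gX_mono Set.subset_union_left)
    (univ_star hv hYX (fun w hw h => ⟨hw, h⟩)) _ ?_ ?_
  · intro a ha h
    have h1 : rt Λ A X a = 1 := congrArg Prod.fst h
    rwa [rt_fix ha] at h1
  · intro b hb h
    have h1 : rt Λ A X b = 1 := congrArg Prod.fst h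
    have h2 : rt Λ A {v} b = 1 := congrArg Prod.snd h
    obtain ⟨y, hy, a, rfl⟩ := star_form hYv hb
    rw [map_mul, rt_o' hv, mul_one, rt_fix (gX_mono hYX hy)] at h1
    subst h1
    rw [one_mul, rt_o (Set.mem_singleton v)] at h2
    rw [one_mul, h2]

end Pool.Agent.N77.GK
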