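import Pool.Agent.N77.GK.Base
import Pool.Agent.R684.FP.Main
import Pool.Agent.R941.FJ.Lfk

/-!
# Extensions by finite graph products: the induction over the vertices
-/

set_option autoImplicit false

namespace Pool.Agent.N77.GK

open Pool.Agent.Y110.FJ
open Pool.Agent.N77.GP
open Pool.Agent.Y462.SS (Closed)
open Pool.Agent.R684.FP (FbC free_ext)
open Pool.Agent.R941.FJ (C_equiv C_le)

variable {C : ∀ (G : Type) [Group G], Prop}
variable {V : Type} {Λ : SimpleGraph V} {A : V → Type} [∀ v, Group (A v)]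
variable {G : Type} [Group G] {N : Subgroup G}

/-- the kernel of the retraction, as a subgroup of `G` -/
noncomputable def NK (e : GrP Λ A ≃* N) (X : Set V) : Subgroup G :=
  (rt Λ A X).ker.map (N.subtype.comp e.toMonoidHom)

theorem mem_NK (e : GrP Λ A ≃* N) (X : Set V) (y : GrP Λ A) :
    (e y : G) ∈ NK e X ↔ rt Λ A X y = 1 := by
  constructor
  · rintro ⟨z, hz, hzy⟩
    have h1 : z = y := e.injective (Subtype.ext hzy)
    rw [← h1]
    exact hz
  · intro h
    exact ⟨y, h, rfl⟩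

theorem NK_le (e : GrP Λ A ≃* N) (X : Set V) : NK e X ≤ N := by
  rintro _ ⟨y, -, rfl⟩
  exact (e y).2

theorem NK_anti (e : GrP Λ A ≃* N) {X Y : Set V} (h : X ⊆ Y) : NK e Y ≤ NK e X := by
  rintro _ ⟨y, hy, rfl⟩
  refine (mem_NK e X y).2 ?_
  rw [← rt_rt h, show rt Λ A Y y = 1 from hy, map_one]

theorem NK_empty (e : GrP Λ A ≃* N) : NK e (∅ : Set V) = N := by
  apply le_antisymm (NK_le e _)
  intro x hx
  obtain ⟨y, hy⟩ := e.surjective ⟨x, hx⟩
  have h1 : x = (e y : G) := by rw [hy]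
  rw [h1, mem_NK]
  have h2 : rt Λ A (∅ : Set V) = 1 := ghom_ext fun w a => rt_o' (Set.notMem_empty w) a
  rw [h2, MonoidHom.one_apply]

theorem NK_univ (e : GrP Λ A ≃* N) : NK e (Set.univ : Set V) = ⊥ := by
  rw [eq_bot_iff]
  rintro _ ⟨y, hy, rfl⟩
  have h2 : rt Λ A (Set.univ : Set V) = MonoidHom.id _ := ghom_ext fun w a => rt_o (Set.mem_univ w) a
  have h3 : y = 1 := by
    have : rt Λ A (Set.univ : Set V) y = 1 := hy
    rwa [h2] at this
  rw [h3, map_one]
  exact one_mem _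

/-- conjugation, as an automorphism of the graph product -/
noncomputable def cj [N.Normal] (e : GrP Λ A ≃* N) (g : G) : GrP Λ A ≃* GrP Λ A :=
  (e.trans (MulAut.conjNormal (H := N) g)).trans e.symm

theorem e_cj [N.Normal] (e : GrP Λ A ≃* N) (g : G) (y : GrP Λ A) :
    (e (cj e g y) : G) = g * e y * g⁻¹ := by
  show ((e (e.symm (MulAut.conjNormal (H := N) g (e y))) : N) : G) = _
  rw [MulEquiv.apply_symm_apply]
  rfl

/-- the condition that the normal closures of the vertex groups are normal in `G` -/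
def Nc [N.Normal] (e : GrP Λ A ≃* N) : Prop :=
  ∀ (g : G) (v : V) (a : A v), rt Λ A {v}ᶜ (cj e g (o Λ A v a)) = 1

theorem rt_cj [N.Normal] {e : GrP Λ A ≃* N} (h : Nc e) (X : Set V) (g : G) (y : GrP Λ A)
    (hy : rt Λ A X y = 1) : rt Λ A X (cj e g y) = 1 := by
  have h1 : (rt Λ A X).comp (cj e g).toMonoidHom =
      ((rt Λ A X).comp (cj e g).toMonoidHom).comp (rt Λ A X) := by
    refine ghom_ext fun v a => ?_
    show rt Λ A X (cj e g (o Λ A v a)) = rt Λ A X (cj e g (rt Λ A X (o Λ A v a)))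
    by_cases hv : v ∈ X
    · rw [rt_o hv]
    · rw [rt_o' hv, map_one, map_one]
      have h2 : X ⊆ {v}ᶜ := fun w hw hwv => hv (by
        rw [Set.mem_singleton_iff] at hwv
        exact hwv ▸ hw)
      rw [← rt_rt h2, h, map_one]
  have h2 := DFunLike.congr_fun h1 y
  have h3 : rt Λ A X (cj e g y) = rt Λ A X (cj e g (rt Λ A X y)) := h2
  rw [h3, hy, map_one, map_one]

theorem NK_normal [N.Normal] {e : GrP Λ A ≃* N} (h : Nc e) (X : Set V) : (NK e X).Normal := by
  constructor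
  rintro _ ⟨y, hy, rfl⟩ g
  show g * (e y : G) * g⁻¹ ∈ NK e X
  rw [← e_cj, mem_NK]
  exact rt_cj h X g y hy

/-- the homomorphism to the product of two smaller quotients -/
noncomputable def pp (e : GrP Λ A ≃* N) (X : Set V) (v : V) [(NK e X).Normal]
    [(NK e {v}).Normal] [(NK e (X ∪ {v})).Normal] :
    G ⧸ NK e (X ∪ {v}) →* (G ⧸ NK e X) × (G ⧸ NK e {v}) :=
  (QuotientGroup.map (NK e (X ∪ {v})) (NK e X) (MonoidHom.id G)
    (fun _ hx => NK_anti e (Set.subset_union_left : X ⊆ X ∪ {v}) hx)).prod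
    (QuotientGroup.map (NK e (X ∪ {v})) (NK e {v}) (MonoidHom.id G)
      (fun _ hx => NK_anti e (Set.subset_union_right : {v} ⊆ X ∪ {v}) hx))

theorem pp_ker (e : GrP Λ A ≃* N) (X : Set V) (v : V) [(NK e X).Normal]
    [(NK e {v}).Normal] [(NK e (X ∪ {v})).Normal] {x : G ⧸ NK e (X ∪ {v})}
    (hx : x ∈ (pp e X v).ker) : ∃ y : GrP Λ A, rt Λ A X y = 1 ∧ rt Λ A {v} y = 1 ∧
      QuotientGroup.mk' (NK e (X ∪ {v})) (e y : G) = x := by
  obtain ⟨g, rfl⟩ := QuotientGroup.mk'_surjective _ x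
  have h1 : (QuotientGroup.mk' (NK e X)) g = 1 := congrArg Prod.fst hx
  have h2 : (QuotientGroup.mk' (NK e {v})) g = 1 := congrArg Prod.snd hx
  rw [QuotientGroup.mk'_apply, QuotientGroup.eq_one_iff] at h1 h2
  obtain ⟨y, hy, rfl⟩ := h1
  exact ⟨y, hy, (mem_NK e {v} y).1 h2, rfl⟩

theorem pp_free (e : GrP Λ A ≃* N) (X : Set V) (v : V) (hv : v ∉ X) [(NK e X).Normal]
    [(NK e {v}).Normal] [(NK e (X ∪ {v})).Normal] : IsFreeGroup (pp e X v).ker := by
  have hfr := free_step (Λ := Λ) (A := A) hv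
  -- the retraction on the quotient
  let φ : N →* N.map (QuotientGroup.mk' (NK e (X ∪ {v}))) :=
    (QuotientGroup.mk' (NK e (X ∪ {v}))).subgroupMap N
  have hφ : Function.Surjective φ := MonoidHom.subgroupMap_surjective _ _
  have hkφ : φ.ker ≤ ((rt Λ A (X ∪ {v})).comp e.symm.toMonoidHom).ker := by
    intro n hn
    have h1 : QuotientGroup.mk' (NK e (X ∪ {v})) (n : G) = 1 := congrArg Subtype.val hn
    rw [QuotientGroup.mk'_apply, QuotientGroup.eq_one_iff] at h1
    have h2 : (n : G) = (e (e.symm n) : G) := by rw [MulEquiv.apply_symm_apply]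
    rw [h2, mem_NK] at h1
    exact h1
  let L : N.map (QuotientGroup.mk' (NK e (X ∪ {v}))) →* GrP Λ A :=
    φ.liftOfRightInverse (Function.surjInv hφ) (Function.rightInverse_surjInv hφ)
      ⟨(rt Λ A (X ∪ {v})).comp e.symm.toMonoidHom, hkφ⟩
  have hL : ∀ n : N, L (φ n) = rt Λ A (X ∪ {v}) (e.symm n) := fun n =>
    MonoidHom.liftOfRightInverse_comp_apply _ _ _ _ _
  have hle : (pp e X v).ker ≤ N.map (QuotientGroup.mk' (NK e (X ∪ {v}))) := by
    intro x hx
    obtain ⟨y, -, -, rfl⟩ := pp_ker e X v hx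
    exact ⟨_, (e y).2, rfl⟩
  have hval : ∀ (x : (pp e X v).ker) (y : GrP Λ A),
      QuotientGroup.mk' (NK e (X ∪ {v})) (e y : G) = x →
      L (Subgroup.inclusion hle x) = rt Λ A (X ∪ {v}) y := by
    intro x y hxy
    have h1 : Subgroup.inclusion hle x = φ (e y) := Subtype.ext hxy.symm
    rw [h1, hL, MulEquiv.symm_apply_apply]
  have hmem : ∀ x : (pp e X v).ker, L (Subgroup.inclusion hle x) ∈
      ((rt Λ A X).prod (rt Λ A {v})).ker ⊓ gX Λ A (X ∪ {v}) := by
    intro x
    obtain ⟨y, h1, h2, h3⟩ := pp_ker e X v x.2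
    rw [hval x y h3]
    refine ⟨?_, rt_mem _ _⟩
    have h4 : rt Λ A X (rt Λ A (X ∪ {v}) y) = 1 := by
      rw [rt_rt (Set.subset_union_left : X ⊆ X ∪ {v}), h1]
    have h5 : rt Λ A {v} (rt Λ A (X ∪ {v}) y) = 1 := by
      rw [rt_rt (Set.subset_union_right : {v} ⊆ X ∪ {v}), h2]
    exact Prod.ext h4 h5
  let g : (pp e X v).ker →* ↥(((rt Λ A X).prod (rt Λ A {v})).ker ⊓ gX Λ A (X ∪ {v})) :=
    (L.comp (Subgroup.inclusion hle)).codRestrict _ hmem
  have hg : Function.Injective g := by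
    rw [injective_iff_map_eq_one]
    intro x hx
    obtain ⟨y, h1, h2, h3⟩ := pp_ker e X v x.2
    have h4 : L (Subgroup.inclusion hle x) = 1 := congrArg Subtype.val hx
    rw [hval x y h3] at h4
    apply Subtype.ext
    rw [← h3]
    show QuotientGroup.mk' _ _ = 1
    rw [QuotientGroup.mk'_apply, QuotientGroup.eq_one_iff, mem_NK]
    exact h4
  exact IsFreeGroup.ofMulEquiv (MonoidHom.ofInjective hg).symm

/-- one step -/
theorem step (hC : ClosedE C) (hF : FbC C) (e : GrP Λ A ≃* N) (X : Set V) (v : V) (hv : v ∉ X)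
    [(NK e X).Normal] [(NK e {v}).Normal] [(NK e (X ∪ {v})).Normal] (h1 : C (G ⧸ NK e X))
    (h2 : C (G ⧸ NK e {v})) : C (G ⧸ NK e (X ∪ {v})) := by
  have hfr := pp_free e X v hv
  refine free_ext hC hF (pp e X v).ker ?_
  exact hC.base.of_injective _ _ (QuotientGroup.kerLift (pp e X v))
    (QuotientGroup.kerLift_injective _) (hC.base.prod _ _ h1 h2)

/-- **extensions by finite graph products, first form** -/
theorem core (hC : ClosedE C) (hF : FbC C) [Finite V] [N.Normal] (e : GrP Λ A ≃* N) (hN : Nc e)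
    (hQ : C (G ⧸ N)) (hv : ∀ v, ∀ _ : (NK e {v}).Normal, C (G ⧸ NK e {v})) : C G := by
  have h : ∀ X : Set V, X.Finite → ∀ _ : (NK e X).Normal, C (G ⧸ NK e X) := by
    intro X hX
    induction X, hX using Set.Finite.induction_on with
    | empty =>
      intro _
      exact C_equiv hC.base (QuotientGroup.quotientMulEquivOfEq (NK_empty e)) hQ
    | @insert a s ha _ ih =>
      intro hn
      have h1 := NK_normal hN s
      have h2 := NK_normal hN {a}
      have h3 := NK_normal hN (s ∪ {a})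
      have h4 := step hC hF e s a ha (ih h1) (hv a h2)
      have h5 : NK e (insert a s) = NK e (s ∪ {a}) := by rw [Set.union_singleton]
      exact C_equiv hC.base (QuotientGroup.quotientMulEquivOfEq h5) h4
  have h1 := h Set.univ Set.finite_univ (NK_normal hN _)
  have h2 := NK_normal hN Set.univ
  have h3 : Function.Injective (QuotientGroup.mk' (NK e (Set.univ : Set V))) := by
    rw [injective_iff_map_eq_one]
    intro x hx
    rw [QuotientGroup.mk'_apply, QuotientGroup.eq_one_iff, NK_univ, Subgroup.mem_bot] at hx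
    exact hx
  exact hC.base.of_injective _ _ _ h3 h1

end Pool.Agent.N77.GK
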