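import Pool.Agent.N77.GK.Tors

/-!
# Extensions by finite graph products of finite groups
-/

set_option autoImplicit false

namespace Pool.Agent.N77.GK

open Pool.Agent.Y110.FJ
open Pool.Agent.N77.GP
open Pool.Agent.Y462.SS (Closed)
open Pool.Agent.R684.FP (FbC free_ext)
open Pool.Agent.R941.FJ (C_equiv C_le lfk)

variable {C : ∀ (G : Type) [Group G], Prop}

section conj

variable {G I : Type} [Group G] {c : I → G} {N : Subgroup G}

/-- conjugation by `g` maps `c i` to an `N`-conjugate of `c j` -/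
def Ce (N : Subgroup G) (c : I → G) (g : G) (i j : I) : Prop :=
  ∃ n ∈ N, n * (g * c i * g⁻¹) * n⁻¹ = c j

theorem Ce_mul [hN : N.Normal] {g h : G} {i j k : I} (h1 : Ce N c h i j) (h2 : Ce N c g j k) :
    Ce N c (g * h) i k := by
  obtain ⟨n, hn, h3⟩ := h1
  obtain ⟨m, hm, h4⟩ := h2
  refine ⟨m * (g * n * g⁻¹), N.mul_mem hm (hN.conj_mem n hn g), ?_⟩
  rw [← h4, ← h3]
  group

theorem Ce_inv [hN : N.Normal] {g : G} {i j : I} (h1 : Ce N c g i j) : Ce N c g⁻¹ j i := by
  obtain ⟨n, hn, h3⟩ := h1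
  refine ⟨g⁻¹ * n⁻¹ * g⁻¹⁻¹, hN.conj_mem _ (N.inv_mem hn) _, ?_⟩
  rw [← h3]
  group

theorem Ce_N {n : G} (hn : n ∈ N) (i : I) : Ce N c n i i := by
  refine ⟨n⁻¹, N.inv_mem hn, ?_⟩
  group

/-- the subgroup of the elements which preserve all conjugacy classes -/
def G1 (N : Subgroup G) [N.Normal] (c : I → G) : Subgroup G where
  carrier := {g | ∀ i, Ce N c g i i}
  one_mem' := fun i => Ce_N N.one_mem i
  mul_mem' := fun ha hb i => Ce_mul (hb i) (ha i)
  inv_mem' := fun ha i => Ce_inv (ha i)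

theorem N_le_G1 [N.Normal] : N ≤ G1 N c := fun _ hn i => Ce_N hn i

theorem G1_fin [Finite I] [N.Normal] (hp : ∀ (g : G) (i : I), ∃ j, Ce N c g i j) :
    (G1 N c).FiniteIndex := by
  classical
  choose s hs using hp
  have h1 : Function.Injective (fun q : G ⧸ G1 N c => s q.out) := by
    intro q q' h
    have h2 : (q.out)⁻¹ * q'.out ∈ G1 N c := by
      intro v
      have h3 := hs q'.out v
      have h4 : s q'.out v = s q.out v := (congrFun h v).symm
      rw [h4] at h3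
      exact Ce_mul h3 (Ce_inv (hs q.out v))
    rw [← QuotientGroup.eq, QuotientGroup.out_eq', QuotientGroup.out_eq'] at h2
    exact h2
  have h2 : Finite (G ⧸ G1 N c) := Finite.of_injective _ h1
  exact Subgroup.finiteIndex_of_finite_quotient

end conj

/-- the quotient by the kernel of the projection to a finite vertex group -/
theorem vert_fin {V : Type} {Λ : SimpleGraph V} {A : V → Type} [∀ v, Group (A v)]
    {G : Type} [Group G] {N : Subgroup G} (hC : ClosedE C) [N.Normal] (e : GrP Λ A ≃* N) (v : V)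
    [(NK e {v}).Normal] (hQ : C (G ⧸ N)) (hA : Finite (A v)) : C (G ⧸ NK e {v}) := by
  let q := QuotientGroup.mk' (NK e {v})
  have hq : ∀ x, q x = 1 ↔ x ∈ NK e {v} := fun x => by
    show QuotientGroup.mk' (NK e {v}) x = 1 ↔ _
    rw [QuotientGroup.mk'_apply, QuotientGroup.eq_one_iff]
  have hN : N.map q = (Kv e v).map q := by
    apply le_antisymm
    · rintro _ ⟨x, hx, rfl⟩
      obtain ⟨k, hk, y, hy, rfl⟩ := N_dec e v hx
      refine ⟨k, hk, ?_⟩
      rw [map_mul, (hq y).2 hy, mul_one]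
    · exact Subgroup.map_mono (Kv_le e v)
  have hnorm : (N.map q).Normal := Subgroup.Normal.map inferInstance q
    (QuotientGroup.mk'_surjective _)
  have hfin : (N.map q : Set (G ⧸ NK e {v})).Finite := by
    rw [hN]
    have h1 : ((Kv e v).map q : Set (G ⧸ NK e {v})) =
        Set.range (fun a : A v => q (e (o Λ A v a) : G)) := by
      ext x
      constructor
      · rintro ⟨_, ⟨a, rfl⟩, rfl⟩
        exact ⟨a, rfl⟩
      · rintro ⟨a, rfl⟩
        exact ⟨_, ⟨a, rfl⟩, rfl⟩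
    rw [h1]
    exact Set.finite_range _
  refine lfk hC (N.map q) (fun E _ hE => ?_) ?_
  · have h1 : Subgroup.closure E ≤ N.map q := (Subgroup.closure_le _).2 hE
    exact (hfin.subset h1).to_subtype
  · exact C_equiv hC.base (QuotientGroup.quotientQuotientEquivQuotient _ _ (NK_le e {v})) hQ

/-- **extensions by finite graph products of finite groups** -/
theorem gf_main (hC : ClosedE C) (hF : FbC C) {G V : Type} [Group G] [Finite V] (N : Subgroup G)
    [hNn : N.Normal] (Λ : SimpleGraph V) (K : V → Subgroup G) (hN : IsGraphProduct Λ K N)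
    (hfin : ∀ v, Finite (K v)) (hQ : C (G ⧸ N)) : C G := by
  obtain ⟨e, he⟩ := ex_iso hN
  obtain ⟨T, hT, hrep⟩ := tors_rep (Λ := Λ) hfin _ Set.univ Set.finite_univ rfl
  -- the elements of finite order of `T`
  obtain ⟨I, hI⟩ : ∃ I : Set (GrP Λ (fun v => K v)), I = {t | t ∈ T ∧ ∃ k : ℕ, 0 < k ∧ t ^ k = 1} :=
    ⟨_, rfl⟩
  have hIf : Finite I := by
    rw [hI]
    exact (hT.subset fun t ht => ht.1).to_subtype
  let c : I → G := fun t => e t.1
  have hrep' : ∀ y : GrP Λ (fun v => K v), ∀ k : ℕ, 0 < k → y ^ k = 1 →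
      ∃ (n : N) (t : I), (n : G) * e y * (n : G)⁻¹ = c t := by
    intro y k hk hyk
    obtain ⟨z, -, hz⟩ := hrep y (by rw [gX_univ]; exact Subgroup.mem_top y) k hk hyk
    have h1 : (z * y * z⁻¹) ^ k = 1 := by
      rw [conj_pow, hyk]
      group
    refine ⟨e z, ⟨z * y * z⁻¹, by rw [hI]; exact ⟨hz, k, hk, h1⟩⟩, ?_⟩
    show _ = (e (z * y * z⁻¹) : G)
    rw [map_mul, map_mul, map_inv]
    rfl
  have hp : ∀ (g : G) (i : I), ∃ j, Ce N c g i j := by
    intro g i
    have h1 : ∃ k : ℕ, 0 < k ∧ i.1 ^ k = 1 := by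
      have h0 : ∀ t ∈ I, ∃ k : ℕ, 0 < k ∧ t ^ k = 1 := fun t ht => by
        rw [hI] at ht
        exact ht.2
      exact h0 _ i.2
    obtain ⟨k, hk, hik⟩ := h1
    obtain ⟨n, t, hnt⟩ := hrep' (cj e g i.1) k hk (by rw [← map_pow, hik, map_one])
    rw [e_cj] at hnt
    exact ⟨t, n, n.2, hnt⟩
  have hfi : (G1 N c).FiniteIndex := G1_fin hp
  refine hC.base.finiteIndex G (G1 N c) hfi ?_
  have hle : N ≤ G1 N c := N_le_G1
  have hN0 : (N.subgroupOf (G1 N c)).Normal := inferInstance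
  let e0 : GrP Λ (fun v => K v) ≃* N.subgroupOf (G1 N c) :=
    e.trans (Subgroup.subgroupOfEquivOfLe hle).symm
  have hQ0 : C (G1 N c ⧸ N.subgroupOf (G1 N c)) := by
    have h1 : N.subgroupOf (G1 N c) ≤ N.comap (G1 N c).subtype := le_rfl
    refine hC.base.of_injective _ _ (QuotientGroup.map _ N (G1 N c).subtype h1) ?_ hQ
    rw [injective_iff_map_eq_one]
    intro x hx
    obtain ⟨g, rfl⟩ := QuotientGroup.mk'_surjective _ x
    have h2 : (QuotientGroup.mk' N) (g : G) = 1 := hx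
    rw [QuotientGroup.mk'_apply, QuotientGroup.eq_one_iff] at h2
    rw [QuotientGroup.mk'_apply, QuotientGroup.eq_one_iff]
    exact Subgroup.mem_subgroupOf.2 h2
  have hnc : Nc e0 := by
    intro g v a
    have hKf : Finite (K v) := hfin v
    have hak : ∃ k : ℕ, 0 < k ∧ a ^ k = 1 := by
      obtain ⟨k, hk, h⟩ := isOfFinOrder_iff_pow_eq_one.1 (isOfFinOrder_of_finite a)
      exact ⟨k, hk, h⟩
    obtain ⟨k, hk, hak⟩ := hak
    obtain ⟨n, t, hnt⟩ := hrep' (o Λ _ v a) k hk (by rw [← map_pow, hak, map_one])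
    obtain ⟨m, hm, hmt⟩ := g.2 t
    -- `g` maps the vertex element to a conjugate
    obtain ⟨y, hy⟩ := e.surjective (n⁻¹ * ⟨m, hm⟩ * ⟨(g : G) * n * (g : G)⁻¹,
      hNn.conj_mem n n.2 g⟩)
    have h2 : cj e0 g (o Λ _ v a) = y⁻¹ * o Λ _ v a * y := by
      apply e0.injective
      apply Subtype.ext
      apply Subtype.ext
      rw [e_cj]
      show (g : G) * (e (o Λ _ v a) : G) * (g : G)⁻¹ = (e (y⁻¹ * o Λ _ v a * y) : G)
      rw [map_mul, map_mul, map_inv, hy]
      show _ = ((n : G)⁻¹ * m * ((g : G) * n * (g : G)⁻¹))⁻¹ * (e (o Λ _ v a) : G) *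
        ((n : G)⁻¹ * m * ((g : G) * n * (g : G)⁻¹))
      have h3 : (e (o Λ _ v a) : G) = (n : G)⁻¹ * c t * n := by
        rw [← hnt]
        group
      have h4 : c t = m * ((g : G) * c t * (g : G)⁻¹) * m⁻¹ := hmt.symm
      have h5 : ((n : G)⁻¹ * m * ((g : G) * n * (g : G)⁻¹))⁻¹ * (e (o Λ _ v a) : G) *
          ((n : G)⁻¹ * m * ((g : G) * n * (g : G)⁻¹)) =
          (g : G) * ((n : G)⁻¹ * ((g : G)⁻¹ * (m⁻¹ * c t * m) * g) * n) * (g : G)⁻¹ := by
        rw [h3]
        group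
      have h6 : (g : G)⁻¹ * (m⁻¹ * c t * m) * g = c t := by
        conv_lhs => rw [h4]
        group
      rw [h5, h6, ← h3]
    rw [h2, map_mul, map_mul, map_inv, rt_o' (show v ∉ ({v} : Set V)ᶜ from fun h => h rfl)]
    group
  exact core hC hF e0 hnc hQ0 fun v _ => vert_fin hC e0 v hQ0 (hfin v)

end Pool.Agent.N77.GK
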