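import Pool.Agent.N77.GK.Core
import Pool.Agent.N77.GP.Main

/-!
# Extensions by finite graph products with permuted conjugacy classes of vertex groups
-/

set_option autoImplicit false

namespace Pool.Agent.N77.GK

open Pool.Agent.Y110.FJ
open Pool.Agent.N77.GP
open Pool.Agent.Y462.SS (Closed)
open Pool.Agent.R684.FP (FbC free_ext)
open Pool.Agent.R941.FJ (C_equiv C_le)

variable {C : ∀ (G : Type) [Group G], Prop}

section gen

variable {G : Type} [Group G]

theorem zc {K : Subgroup G} {g : G} (h : ∀ x, x ∈ K ↔ g * x * g⁻¹ ∈ K) (j : ℤ) {x : G}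
    (hx : x ∈ K) : g ^ j * x * (g ^ j)⁻¹ ∈ K := by
  have := zconj (V := Unit) (K := fun _ => K) (h := g) (σ := 1) (fun _ x hx => (h x).1 hx)
    (fun _ x hx => by
      rw [h]
      have h2 : g * (g⁻¹ * x * g) * g⁻¹ = x := by group
      rw [h2]
      exact hx) j () x hx
  exact this

/-- the elements of the subgroup generated by `K` and an element that normalizes `K` -/
theorem sup_form {K : Subgroup G} {g : G} (h : ∀ x, x ∈ K ↔ g * x * g⁻¹ ∈ K) {x : G}
    (hx : x ∈ K ⊔ Subgroup.zpowers g) : ∃ k ∈ K, ∃ j : ℤ, x = k * g ^ j := by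
  let S : Subgroup G :=
    { carrier := {x | ∃ k ∈ K, ∃ j : ℤ, x = k * g ^ j}
      one_mem' := ⟨1, K.one_mem, 0, by simp⟩
      mul_mem' := by
        rintro _ _ ⟨k, hk, j, rfl⟩ ⟨k', hk', j', rfl⟩
        refine ⟨k * (g ^ j * k' * (g ^ j)⁻¹), K.mul_mem hk (zc h j hk'), j + j', ?_⟩
        rw [zpow_add]
        group
      inv_mem' := by
        rintro _ ⟨k, hk, j, rfl⟩
        refine ⟨g ^ (-j) * k⁻¹ * (g ^ (-j))⁻¹, zc h (-j) (K.inv_mem hk), -j, ?_⟩
        group }
  have h1 : K ⊔ Subgroup.zpowers g ≤ S := by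
    refine sup_le (fun k hk => ⟨k, hk, 0, by simp⟩) ?_
    rw [Subgroup.zpowers_le]
    exact ⟨1, K.one_mem, 1, by simp⟩
  exact h1 hx

end gen

section vert

variable {V : Type} {Λ : SimpleGraph V} {A : V → Type} [∀ v, Group (A v)]
variable {G : Type} [Group G] {N : Subgroup G}

/-- the vertex subgroup -/
noncomputable def Kv (e : GrP Λ A ≃* N) (v : V) : Subgroup G :=
  ((N.subtype.comp e.toMonoidHom).comp (o Λ A v)).range

theorem Kv_le (e : GrP Λ A ≃* N) (v : V) : Kv e v ≤ N := by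
  rintro _ ⟨a, rfl⟩
  exact (e _).2

/-- every element of `N` is a product of an element of the vertex group and one of the kernel -/
theorem N_dec (e : GrP Λ A ≃* N) (v : V) {x : G} (hx : x ∈ N) :
    ∃ k ∈ Kv e v, ∃ y ∈ NK e {v}, x = k * y := by
  obtain ⟨z, hz⟩ := e.surjective ⟨x, hx⟩
  have h1 : rt Λ A {v} z ∈ gX Λ A ((∅ : Set V) ∪ {v}) := by
    rw [Set.empty_union]
    exact rt_mem _ _
  obtain ⟨y, hy, a, hya⟩ := star_form (Y := ∅) (fun w hw => absurd hw (Set.notMem_empty w)) h1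
  have hy1 : y = 1 := by
    have h2 : gX Λ A (∅ : Set V) ≤ ⊥ := gX_le fun w hw => absurd hw (Set.notMem_empty w)
    exact Subgroup.mem_bot.1 (h2 hy)
  rw [hy1, one_mul] at hya
  refine ⟨e (o Λ A v a), ⟨a, rfl⟩, e ((o Λ A v a)⁻¹ * z), ?_, ?_⟩
  · rw [mem_NK, map_mul, map_inv, rt_o (Set.mem_singleton v), hya, inv_mul_cancel]
  · rw [← Subgroup.coe_mul, ← map_mul, mul_inv_cancel_left, hz]

theorem Kv_disj (e : GrP Λ A ≃* N) (v : V) {x : G} (hx : x ∈ Kv e v) (hx' : x ∈ NK e {v}) :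
    x = 1 := by
  obtain ⟨a, rfl⟩ := hx
  have h1 : rt Λ A {v} (o Λ A v a) = 1 := (mem_NK e {v} _).1 hx'
  rw [rt_o (Set.mem_singleton v)] at h1
  show ((e (o Λ A v a) : N) : G) = 1
  rw [h1, map_one]
  rfl

/-- the quotient by the kernel of the projection to one vertex group -/
theorem vert (hC : ClosedE C) [N.Normal] (e : GrP Λ A ≃* N) (v : V) [(NK e {v}).Normal]
    (hQ : C (G ⧸ N)) (hA : C ↥(Kv e v))
    (hz : ∀ g : G, ∃ n ∈ N, (∀ x, x ∈ Kv e v ↔ n * g * x * (n * g)⁻¹ ∈ Kv e v) ∧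
      C ↥(Kv e v ⊔ Subgroup.zpowers (n * g))) : C (G ⧸ NK e {v}) := by
  let q := QuotientGroup.mk' (NK e {v})
  have hq : ∀ x, q x = 1 ↔ x ∈ NK e {v} := fun x => by
    show QuotientGroup.mk' (NK e {v}) x = 1 ↔ _
    rw [QuotientGroup.mk'_apply, QuotientGroup.eq_one_iff]
  have hN : N.map q = (Kv e v).map q := by
    apply le_antisymm
    · rintro _ ⟨x, hx, rfl⟩
      obtain ⟨k, hk, y, hy, rfl⟩ := N_dec e v hx
      refine ⟨k, hk, ?_⟩
      rw [map_mul, (hq y).2 hy, mul_one]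
    · exact Subgroup.map_mono (Kv_le e v)
  have hCinj : ∀ S : Subgroup G, (∀ x ∈ S, x ∈ NK e {v} → x = 1) → C S → C ↥(S.map q) := by
    intro S hS hCS
    have h1 : Function.Injective (q.subgroupMap S) := by
      rw [injective_iff_map_eq_one]
      intro x hx
      exact Subtype.ext (hS x x.2 ((hq x).1 (congrArg Subtype.val hx)))
    have h2 := MulEquiv.ofBijective _ ⟨h1, MonoidHom.subgroupMap_surjective q S⟩
    exact C_equiv hC.base h2.symm hCS
  have hnorm : (N.map q).Normal := Subgroup.Normal.map inferInstance q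
    (QuotientGroup.mk'_surjective _)
  refine Pool.Agent.Y529.FJ.t_ext C hC (G ⧸ NK e {v}) (N.map q) ?_ ?_ ?_
  · rw [hN]
    exact hCinj _ (fun x hx hx' => Kv_disj e v hx hx') hA
  · exact C_equiv hC.base (QuotientGroup.quotientQuotientEquivQuotient _ _ (NK_le e {v})) hQ
  · intro g' hg'
    obtain ⟨g, rfl⟩ := QuotientGroup.mk'_surjective _ g'
    obtain ⟨n, hn, h1, h2⟩ := hz g
    have h3 : N.map q ⊔ Subgroup.zpowers (QuotientGroup.mk' (NK e {v}) g) =
        (Kv e v ⊔ Subgroup.zpowers (n * g)).map q := by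
      have hnq : q n ∈ N.map q := ⟨n, hn, rfl⟩
      rw [Subgroup.map_sup, MonoidHom.map_zpowers, ← hN, map_mul]
      apply le_antisymm
      · refine sup_le le_sup_left ?_
        rw [Subgroup.zpowers_le]
        have h4 : q n * q g ∈ N.map q ⊔ Subgroup.zpowers (q n * q g) :=
          Subgroup.mem_sup_right (Subgroup.mem_zpowers _)
        have h5 := mul_mem (inv_mem (Subgroup.mem_sup_left hnq :
          q n ∈ N.map q ⊔ Subgroup.zpowers (q n * q g))) h4
        rwa [inv_mul_cancel_left] at h5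
      · refine sup_le le_sup_left ?_
        rw [Subgroup.zpowers_le]
        exact mul_mem (Subgroup.mem_sup_left hnq) (Subgroup.mem_sup_right (Subgroup.mem_zpowers _))
    rw [h3]
    refine hCinj _ ?_ h2
    intro x hx hx'
    obtain ⟨k, hk, j, rfl⟩ := sup_form h1 hx
    -- the exponent vanishes
    have h4 : (n * g) ^ j ∈ N := by
      have h5 := N.mul_mem (N.inv_mem (Kv_le e v hk)) (NK_le e {v} hx')
      rwa [inv_mul_cancel_left] at h5
    have h5 : j = 0 := by
      by_contra hj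
      have h6 : (QuotientGroup.mk' N g) ^ j = 1 := by
        have h7 : QuotientGroup.mk' N (n * g) = QuotientGroup.mk' N g := by
          rw [map_mul, show QuotientGroup.mk' N n = 1 from (QuotientGroup.eq_one_iff n).2 hn,
            one_mul]
        rw [← h7, ← map_zpow]
        exact (QuotientGroup.eq_one_iff _).2 h4
      have h7 : g ^ j ∈ N := by
        rw [← map_zpow] at h6
        exact (QuotientGroup.eq_one_iff _).1 h6
      have h8 : g ^ j.natAbs ∈ N := by
        rcases Int.natAbs_eq j with h | h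
        · rw [h, zpow_natCast] at h7
          exact h7
        · rw [h, zpow_neg, zpow_natCast] at h7
          exact (Subgroup.inv_mem_iff N).1 h7
      refine hg' j.natAbs (Int.natAbs_pos.2 hj) ?_
      rw [← map_pow]
      exact ⟨_, h8, rfl⟩
    rw [h5, zpow_zero, mul_one] at hx' ⊢
    exact Kv_disj e v hk hx'

end vert

section iso

variable {G V : Type} [Group G] {Λ : SimpleGraph V} {K : V → Subgroup G} {N : Subgroup G}

/-- an internal graph product is isomorphic to the graph product -/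
theorem ex_iso (h : IsGraphProduct Λ K N) :
    ∃ e : GrP Λ (fun v => K v) ≃* N, ∀ v (x : K v), (e (o Λ _ v x) : G) = x := by
  obtain ⟨f, hf⟩ := ex_lift h (fun v => o Λ (fun v => K v) v) (fun v w hvw a b => of_comm (A := fun v => K v) hvw a b)
  obtain ⟨k, hk⟩ : ∃ k : GrP Λ (fun v => K v) →* N, ∀ v (x : K v),
      k (o Λ _ v x) = ⟨x, K_le h v x.2⟩ :=
    ⟨glift (fun v => Subgroup.inclusion (K_le h v))
      (fun v w hvw a b => Subtype.ext (h.comm v w hvw a a.2 b b.2)), fun v x => glift_of _ _ _ _⟩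
  have h1 : f.comp k = MonoidHom.id _ := ghom_ext fun v x => by
    show f (k (o Λ _ v x)) = o Λ _ v x
    rw [hk, hf]
  have h2 : ∀ x : N, k (f x) = x := by
    intro x
    have h3 : (x : G) ∈ NS K Set.univ := by
      have h4 : NS K Set.univ = N := by
        rw [← h.sup, NS]
        congr 1
        ext v
        simp
      rw [h4]
      exact x.2
    exact hom_agree h (k.comp f) (MonoidHom.id _) (fun v _ y => by
      show k (f ⟨y, _⟩) = ⟨y, _⟩
      rw [hf, hk]) x h3
  refine ⟨MonoidHom.toMulEquiv k f h1 (MonoidHom.ext h2), fun v x => ?_⟩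
  show ((k (o Λ _ v x) : N) : G) = x
  rw [hk]

end iso

section conj

variable {G V : Type} [Group G] {K : V → Subgroup G} {N : Subgroup G}

/-- conjugation by `g` maps `K v` to an `N`-conjugate of `K w` -/
def Cj (N : Subgroup G) (K : V → Subgroup G) (g : G) (v w : V) : Prop :=
  ∃ n ∈ N, ∀ x, x ∈ K v ↔ n * (g * x * g⁻¹) * n⁻¹ ∈ K w

theorem Cj_mul [hN : N.Normal] {g h : G} {u v w : V} (h1 : Cj N K h u v) (h2 : Cj N K g v w) :
    Cj N K (g * h) u w := by
  obtain ⟨n, hn, h3⟩ := h1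
  obtain ⟨m, hm, h4⟩ := h2
  refine ⟨m * (g * n * g⁻¹), N.mul_mem hm (hN.conj_mem n hn g), fun x => ?_⟩
  rw [h3, h4]
  have h5 : m * (g * (n * (h * x * h⁻¹) * n⁻¹) * g⁻¹) * m⁻¹ =
      m * (g * n * g⁻¹) * (g * h * x * (g * h)⁻¹) * (m * (g * n * g⁻¹))⁻¹ := by group
  rw [h5]

theorem Cj_inv [hN : N.Normal] {g : G} {v w : V} (h1 : Cj N K g v w) : Cj N K g⁻¹ w v := by
  obtain ⟨n, hn, h3⟩ := h1
  refine ⟨g⁻¹ * n⁻¹ * g⁻¹⁻¹, hN.conj_mem _ (N.inv_mem hn) _, fun x => ?_⟩
  rw [h3]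
  have h5 : n * (g * (g⁻¹ * n⁻¹ * g⁻¹⁻¹ * (g⁻¹ * x * g⁻¹⁻¹) * (g⁻¹ * n⁻¹ * g⁻¹⁻¹)⁻¹) * g⁻¹) * n⁻¹ =
      x := by group
  rw [h5]

theorem Cj_N {n : G} (hn : n ∈ N) (v : V) : Cj N K n v v := by
  refine ⟨n⁻¹, N.inv_mem hn, fun x => ?_⟩
  have h5 : n⁻¹ * (n * x * n⁻¹) * n⁻¹⁻¹ = x := by group
  rw [h5]

/-- the subgroup of the elements which preserve all conjugacy classes -/
def G0 (N : Subgroup G) [N.Normal] (K : V → Subgroup G) : Subgroup G where
  carrier := {g | ∀ v, Cj N K g v v}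
  one_mem' := fun v => Cj_N N.one_mem v
  mul_mem' := fun ha hb v => Cj_mul (hb v) (ha v)
  inv_mem' := fun ha v => Cj_inv (ha v)

theorem N_le_G0 [N.Normal] : N ≤ G0 N K := fun _ hn v => Cj_N hn v

theorem G0_fin [Finite V] [N.Normal] (hp : ∀ (g : G) (v : V), ∃ w, Cj N K g v w) :
    (G0 N K).FiniteIndex := by
  classical
  choose s hs using hp
  have h1 : Function.Injective (fun q : G ⧸ G0 N K => s q.out) := by
    intro q q' h
    have h2 : (q.out)⁻¹ * q'.out ∈ G0 N K := by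
      intro v
      have h3 := hs q'.out v
      have h4 : s q'.out v = s q.out v := (congrFun h v).symm
      rw [h4] at h3
      exact Cj_mul h3 (Cj_inv (hs q.out v))
    rw [← QuotientGroup.eq, QuotientGroup.out_eq', QuotientGroup.out_eq'] at h2
    exact h2
  have h2 : Finite (G ⧸ G0 N K) := Finite.of_injective _ h1
  exact Subgroup.finiteIndex_of_finite_quotient

end conj

/-- **extensions by finite graph products** -/
theorem gk_main (hC : ClosedE C) (hF : FbC C) {G V : Type} [Group G] [Finite V] (N : Subgroup G)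
    [hNn : N.Normal] (Λ : SimpleGraph V) (K : V → Subgroup G) (hN : IsGraphProduct Λ K N)
    (hp : ∀ (g : G) (v : V), ∃ w, ∃ n ∈ N, ∀ x, x ∈ K v ↔ n * (g * x * g⁻¹) * n⁻¹ ∈ K w)
    (hK : ∀ (v : V) (g : G), (∀ x, x ∈ K v ↔ g * x * g⁻¹ ∈ K v) →
      C ↥(K v ⊔ Subgroup.zpowers g)) (hQ : C (G ⧸ N)) : C G := by
  have hfin : (G0 N K).FiniteIndex := G0_fin hp
  refine hC.base.finiteIndex G (G0 N K) hfin ?_
  have hle : N ≤ G0 N K := N_le_G0
  obtain ⟨e, he⟩ := ex_iso hN
  have hN0 : (N.subgroupOf (G0 N K)).Normal := inferInstance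
  let e0 : GrP Λ (fun v => K v) ≃* N.subgroupOf (G0 N K) :=
    e.trans (Subgroup.subgroupOfEquivOfLe hle).symm
  have he0 : ∀ y, ((e0 y : G0 N K) : G) = e y := fun y => rfl
  have hQ0 : C (G0 N K ⧸ N.subgroupOf (G0 N K)) := by
    have h1 : N.subgroupOf (G0 N K) ≤ N.comap (G0 N K).subtype := le_rfl
    refine hC.base.of_injective _ _ (QuotientGroup.map _ N (G0 N K).subtype h1) ?_ hQ
    rw [injective_iff_map_eq_one]
    intro x hx
    obtain ⟨g, rfl⟩ := QuotientGroup.mk'_surjective _ x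
    have h2 : (QuotientGroup.mk' N) (g : G) = 1 := hx
    rw [QuotientGroup.mk'_apply, QuotientGroup.eq_one_iff] at h2
    rw [QuotientGroup.mk'_apply, QuotientGroup.eq_one_iff]
    exact Subgroup.mem_subgroupOf.2 h2
  have hnc : Nc e0 := by
    intro g v a
    obtain ⟨n, hn, h1⟩ := g.2 v
    obtain ⟨y, hy⟩ := e.surjective ⟨n, hn⟩
    have ha : n * ((g : G) * (e (o Λ _ v a) : G) * (g : G)⁻¹) * n⁻¹ ∈ K v := by
      rw [← h1, he]
      exact a.2
    obtain ⟨b, hb⟩ : ∃ b : K v, (b : G) = n * ((g : G) * (e (o Λ _ v a) : G) * (g : G)⁻¹) * n⁻¹ :=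
      ⟨⟨_, ha⟩, rfl⟩
    have h2 : cj e0 g (o Λ _ v a) = y⁻¹ * o Λ _ v b * y := by
      apply e0.injective
      apply Subtype.ext
      apply Subtype.ext
      rw [e_cj]
      show (g : G) * (e (o Λ _ v a) : G) * (g : G)⁻¹ = (e (y⁻¹ * o Λ _ v b * y) : G)
      rw [map_mul, map_mul, map_inv, hy, Subgroup.coe_mul, Subgroup.coe_mul, Subgroup.coe_inv,
        he v b, hb]
      show _ = n⁻¹ * (n * ((g : G) * (e (o Λ _ v a) : G) * (g : G)⁻¹) * n⁻¹) * n
      group
    rw [h2, map_mul, map_mul, map_inv, rt_o' (show v ∉ ({v} : Set V)ᶜ from fun h => h rfl)]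
    group
  have hKv : ∀ v, Kv e0 v = (K v).subgroupOf (G0 N K) := by
    intro v
    ext x
    constructor
    · rintro ⟨a, rfl⟩
      show (e (o Λ _ v a) : G) ∈ K v
      rw [he]
      exact a.2
    · intro hx
      refine ⟨⟨x, hx⟩, ?_⟩
      apply Subtype.ext
      show (e (o Λ _ v _) : G) = x
      rw [he]
  have hKle : ∀ v, K v ≤ G0 N K := fun v => (K_le hN v).trans hle
  refine core hC hF e0 hnc hQ0 fun v _ => ?_
  refine vert hC e0 v hQ0 ?_ ?_
  · rw [hKv]
    refine C_equiv hC.base (Subgroup.subgroupOfEquivOfLe (hKle v)) ?_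
    exact C_le hC.base (le_sup_left) (hK v 1 (fun x => by simp))
  · intro g
    obtain ⟨n, hn, h1⟩ := g.2 v
    have h2 : ∀ x, x ∈ K v ↔ (n * g) * x * (n * g)⁻¹ ∈ K v := by
      intro x
      rw [h1]
      have h3 : n * ((g : G) * x * (g : G)⁻¹) * n⁻¹ = n * g * x * (n * g)⁻¹ := by group
      rw [h3]
    refine ⟨⟨n, hle hn⟩, Subgroup.mem_subgroupOf.2 hn, ?_, ?_⟩
    · intro x
      rw [hKv, Subgroup.mem_subgroupOf, Subgroup.mem_subgroupOf]
      exact h2 x
    · rw [hKv]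
      have h4 : (K v).subgroupOf (G0 N K) ⊔ Subgroup.zpowers (⟨n, hle hn⟩ * g) =
          (K v ⊔ Subgroup.zpowers (n * (g : G))).subgroupOf (G0 N K) := by
        have h5 : Subgroup.zpowers (n * (g : G)) ≤ G0 N K := by
          rw [Subgroup.zpowers_le]
          exact mul_mem (hle hn) g.2
        rw [Subgroup.subgroupOf_sup (hKle v) h5]
        congr 1
        ext x
        constructor
        · rintro ⟨k, rfl⟩
          exact ⟨k, rfl⟩
        · rintro ⟨k, hk⟩
          exact ⟨k, Subtype.ext hk⟩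
      rw [h4]
      have h5 : K v ⊔ Subgroup.zpowers (n * (g : G)) ≤ G0 N K := by
        refine sup_le (hKle v) ?_
        rw [Subgroup.zpowers_le]
        exact mul_mem (hle hn) g.2
      exact C_equiv hC.base (Subgroup.subgroupOfEquivOfLe h5) (hK v _ h2)

end Pool.Agent.N77.GK
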