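import Pool.Agent.N77.GK.Main

/-!
# Elements of finite order in graph products of finite groups
-/

set_option autoImplicit false

namespace Pool.Agent.N77.GK

open Pool.Agent.Y110.FJ
open Pool.Agent.N77.GP
open Pool.Agent.Y462.SS (Closed)
open Pool.Agent.R684.FP (FbC free_ext)
open Pool.Agent.R941.FJ (C_equiv C_le)
open Pool.Agent.Y417.FJ (Alt NF permAut_mk reduced_map)
open Pool.Agent.N77.GL (nf_sup)

/-- alternating products are not in the first factor -/
theorem alt_not_in {Γ P : Type} [Group Γ] [Group P] (A B K : Subgroup Γ)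
    (hKA : K ≤ A) (hKB : K ≤ B)
    (univ : ∀ (H : Type) [Group H] (f : A →* H) (g : B →* H),
      (∀ (c : Γ) (hc : c ∈ K), f ⟨c, hKA hc⟩ = g ⟨c, hKB hc⟩) →
      ∃ h : Γ →* H, (∀ a : A, h a = f a) ∧ ∀ b : B, h b = g b)
    (f : Γ →* P) (hfA : ∀ a ∈ A, f a = 1 → a = 1) (hfB : ∀ b ∈ B, f b = 1 → b = 1) :
    ∀ h, Alt A B K h → h ∉ A := by
  let X : Type := P ⧸ K.map f
  let x1 : X := ((1 : P) : P ⧸ K.map f)
  let z : FreeGroup X ⋊[permAut X P] P := SemidirectProduct.inl (FreeGroup.of x1)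
  have hx1 : ∀ p : P, p • x1 = x1 ↔ p ∈ K.map f := by
    intro p
    show ((p * 1 : P) : P ⧸ K.map f) = ((1 : P) : P ⧸ K.map f) ↔ _
    rw [mul_one, eq_comm, QuotientGroup.eq]
    simp
  have hz : ∀ p : P, p ∈ K.map f →
      z * SemidirectProduct.inr p * z⁻¹ =
        (SemidirectProduct.inr p : FreeGroup X ⋊[permAut X P] P) := by
    intro p hp
    have h1 : (permAut X P p) (FreeGroup.of x1) = FreeGroup.of x1 := by
      have := permAut_mk p [((x1, true) : X × Bool)]
      have h2 : (permAut X P p) (FreeGroup.of x1) = FreeGroup.of (p • x1) := this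
      rw [h2, (hx1 p).2 hp]
    have h3 : (SemidirectProduct.inr p : FreeGroup X ⋊[permAut X P] P) * z *
        (SemidirectProduct.inr p)⁻¹ = z := by
      rw [← map_inv, ← SemidirectProduct.inl_aut, h1]
    have h4 : (SemidirectProduct.inr p : FreeGroup X ⋊[permAut X P] P) * z =
        z * SemidirectProduct.inr p := by
      rw [mul_inv_eq_iff_eq_mul] at h3; exact h3
    rw [← h4, mul_inv_cancel_right]
  let fA : A →* FreeGroup X ⋊[permAut X P] P := (SemidirectProduct.inr.comp f).comp A.subtype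
  let fB : B →* FreeGroup X ⋊[permAut X P] P :=
    ((MulAut.conj z).toMonoidHom.comp (SemidirectProduct.inr.comp f)).comp B.subtype
  obtain ⟨Θ, hΘA, hΘB⟩ := univ (FreeGroup X ⋊[permAut X P] P) fA fB (by
    intro c hc
    show SemidirectProduct.inr (f c) = z * SemidirectProduct.inr (f c) * z⁻¹
    rw [hz (f c) ⟨c, hc, rfl⟩])
  have hA' : ∀ a ∈ A, Θ a = SemidirectProduct.inr (f a) := fun a ha => hΘA ⟨a, ha⟩
  have hB' : ∀ b ∈ B, Θ b = z * SemidirectProduct.inr (f b) * z⁻¹ := fun b hb => hΘB ⟨b, hb⟩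
  have hrA : ∀ a ∈ A, (Θ a).right = f a := fun a ha => by rw [hA' a ha]; simp
  have hrB : ∀ b ∈ B, (Θ b).right = f b := fun b hb => by rw [hB' b hb]; simp [z]
  have hlA : ∀ a ∈ A, (Θ a).left = 1 := by
    intro a ha
    rw [hA' a ha]; simp
  have hlB : ∀ b ∈ B, (Θ b).left = FreeGroup.mk [(x1, true), (f b • x1, false)] := by
    intro b hb
    rw [hB' b hb]
    have h1 : (z * SemidirectProduct.inr (f b) * z⁻¹).left
        = FreeGroup.of x1 * permAut X P (f b) (FreeGroup.of x1)⁻¹ := by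
      simp [z, SemidirectProduct.mul_left]
    have h2 : permAut X P (f b) (FreeGroup.of x1)⁻¹ =
        FreeGroup.mk [((f b • x1, false) : X × Bool)] := by
      have := permAut_mk (f b) [((x1, false) : X × Bool)]
      rw [FreeGroup.of, FreeGroup.inv_mk]
      exact this
    rw [h1, h2, FreeGroup.of, FreeGroup.mul_mk]
    rfl
  have hBA : ∀ b ∈ B, ∀ a ∈ A, (Θ (b * a)).left = FreeGroup.mk [(x1, true), (f b • x1, false)] ∧
      (Θ (b * a)).right = f (b * a) := by
    intro b hb a ha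
    rw [map_mul, SemidirectProduct.mul_left, SemidirectProduct.mul_right, hrA a ha, hrB b hb,
      hlA a ha, map_one, mul_one, hlB b hb, map_mul]
    exact ⟨rfl, rfl⟩
  have hoA : ∀ a ∈ A, a ∉ K → f a ∉ K.map f := by
    rintro a ha haK ⟨k, hk, hfk⟩
    have : f (a * k⁻¹) = 1 := by rw [map_mul, map_inv, hfk, mul_inv_cancel]
    have h2 := hfA _ (A.mul_mem ha (A.inv_mem (hKA hk))) this
    exact haK (by rw [mul_inv_eq_one.1 h2]; exact hk)
  have hoB : ∀ b ∈ B, b ∉ K → f b ∉ K.map f := by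
    rintro b hb hbK ⟨k, hk, hfk⟩
    have : f (b * k⁻¹) = 1 := by rw [map_mul, map_inv, hfk, mul_inv_cancel]
    have h2 := hfB _ (B.mul_mem hb (B.inv_mem (hKB hk))) this
    exact hbK (by rw [mul_inv_eq_one.1 h2]; exact hk)
  have halt : ∀ g, Alt A B K g → ∃ L : List (X × Bool), FreeGroup.IsReduced ((x1, true) :: L) ∧
      (Θ g).left = FreeGroup.mk ((x1, true) :: L) := by
    intro g hg
    induction hg with
    | base b a hb hbK ha =>
      refine ⟨[(f b • x1, false)], ?_, (hBA b hb a ha).1⟩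
      rw [FreeGroup.isReduced_cons_cons]
      refine ⟨fun h => ?_, FreeGroup.IsReduced.singleton⟩
      exact absurd ((hx1 _).1 h.symm) (hoB b hb hbK)
    | step b a g hb hbK ha haK hg ih =>
      obtain ⟨L, hL, hLg⟩ := ih
      refine ⟨(f b • x1, false) :: ((x1, true) :: L).map (fun q => (f (b * a) • q.1, q.2)), ?_, ?_⟩
      · rw [FreeGroup.isReduced_cons_cons]
        refine ⟨fun h => absurd ((hx1 _).1 h.symm) (hoB b hb hbK), ?_⟩
        rw [List.map_cons, FreeGroup.isReduced_cons_cons]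
        refine ⟨fun h => ?_, ?_⟩
        · exfalso
          have h' : f b • x1 = f (b * a) • x1 := h
          rw [map_mul, mul_smul] at h'
          exact hoA a ha haK ((hx1 _).1 (MulAction.injective (f b) h').symm)
        · have := reduced_map (f (b * a)) _ hL
          rwa [List.map_cons] at this
      · rw [map_mul, SemidirectProduct.mul_left, (hBA b hb a ha).1, (hBA b hb a ha).2, hLg,
          permAut_mk, FreeGroup.mul_mk]
        rfl
  intro h hh hA
  obtain ⟨L, hL, hLh⟩ := halt h hh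
  rw [hlA h hA] at hLh
  classical
  have h4 : (FreeGroup.mk ((x1, true) :: L)).toWord = (x1, true) :: L := by
    rw [FreeGroup.toWord_mk]
    exact hL.reduce_eq
  rw [← hLh] at h4
  simp at h4

section tors

variable {Γ : Type} [Group Γ] {A B K : Subgroup Γ}

/-- the product of a list of pairs -/
def pr (l : List (Γ × Γ)) : Γ := (l.map fun p => p.1 * p.2).prod

/-- the entries are in `B` and `A` -/
def Gd (A B : Subgroup Γ) (l : List (Γ × Γ)) : Prop := ∀ p ∈ l, p.1 ∈ B ∧ p.2 ∈ A

theorem pr_cons (p : Γ × Γ) (l : List (Γ × Γ)) : pr (p :: l) = p.1 * p.2 * pr l := by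
  simp [pr]

theorem pr_append (l l' : List (Γ × Γ)) : pr (l ++ l') = pr l * pr l' := by
  simp [pr]

theorem pr_mem {l : List (Γ × Γ)} (h : Gd A B l) : pr l ∈ A ⊔ B := by
  induction l with
  | nil => exact one_mem _
  | cons p l ih =>
    rw [pr_cons]
    have h1 := h p List.mem_cons_self
    exact mul_mem (mul_mem (Subgroup.mem_sup_right h1.1) (Subgroup.mem_sup_left h1.2))
      (ih fun q hq => h q (List.mem_cons_of_mem _ hq))

/-- multiplication of the last entry -/
theorem pr_last {l : List (Γ × Γ)} (h : Gd A B l) (hl : l ≠ []) {a : Γ} (ha : a ∈ A) :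
    ∃ l', Gd A B l' ∧ l'.length = l.length ∧ pr l' = pr l * a := by
  obtain ⟨l0, p, rfl⟩ := List.eq_nil_or_concat l |>.resolve_left hl
  refine ⟨l0 ++ [(p.1, p.2 * a)], ?_, by simp, ?_⟩
  · intro q hq
    rw [List.mem_append, List.mem_singleton] at hq
    rcases hq with hq | rfl
    · exact h q (by simp [hq])
    · have := h p (by simp)
      exact ⟨this.1, A.mul_mem this.2 ha⟩
  · rw [List.concat_eq_append, pr_append, pr_append, pr_cons, pr_cons]
    simp only [mul_assoc]
    congr 3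
    simp [pr]

theorem alt_list {h : Γ} (hh : Alt A B K h) : ∃ l, Gd A B l ∧ l ≠ [] ∧ pr l = h := by
  induction hh with
  | base b a hb _ ha =>
    refine ⟨[(b, a)], ?_, by simp, by simp [pr]⟩
    intro q hq
    rw [List.mem_singleton] at hq
    subst hq
    exact ⟨hb, ha⟩
  | step b a g hb _ ha _ _ ih =>
    obtain ⟨l, h1, h2, h3⟩ := ih
    refine ⟨(b, a) :: l, ?_, by simp, by rw [pr_cons, h3]⟩
    intro q hq
    rcases List.mem_cons.1 hq with rfl | hq
    · exact ⟨hb, ha⟩
    · exact h1 q hq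

/-- lists with all entries outside of `K` -/
theorem list_alt {l : List (Γ × Γ)} (hl : l ≠ [])
    (h : ∀ p ∈ l, (p.1 ∈ B ∧ p.1 ∉ K) ∧ p.2 ∈ A ∧ p.2 ∉ K) : Alt A B K (pr l) := by
  induction l with
  | nil => exact absurd rfl hl
  | cons p l ih =>
    have h1 := h p List.mem_cons_self
    by_cases hl' : l = []
    · subst hl'
      have h2 : pr [p] = p.1 * p.2 := by simp [pr]
      rw [h2]
      exact Alt.base _ _ h1.1.1 h1.1.2 h1.2.1
    · rw [pr_cons]
      exact Alt.step _ _ _ h1.1.1 h1.1.2 h1.2.1 h1.2.2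
        (ih hl' fun q hq => h q (List.mem_cons_of_mem _ hq))

/-- conjugates of `x` which are products of `n` pairs -/
def Qn (A B : Subgroup Γ) (x : Γ) (n : ℕ) : Prop :=
  (n = 0 ∧ ∃ g ∈ A ⊔ B, g * x * g⁻¹ ∈ A) ∨
  (0 < n ∧ ∃ l, ∃ g ∈ A ⊔ B, Gd A B l ∧ l.length = n ∧ g * x * g⁻¹ = pr l)

/-- moving an element of `A` around -/
theorem Qn_of (x g u : Γ) (l : List (Γ × Γ)) (hg : g ∈ A ⊔ B) (hu : u ∈ A) (hl : Gd A B l)
    (h : g * x * g⁻¹ = u * pr l) : Qn A B x l.length := by
  by_cases hn : l = []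
  · subst hn
    left
    refine ⟨rfl, g, hg, ?_⟩
    rw [h]
    simpa [pr] using hu
  · right
    obtain ⟨l', h1, h2, h3⟩ := pr_last hl hn hu
    refine ⟨List.length_pos_of_ne_nil hn, l', u⁻¹ * g,
      mul_mem (inv_mem (Subgroup.mem_sup_left hu)) hg, h1, h2, ?_⟩
    rw [h3]
    have h4 : u⁻¹ * g * x * (u⁻¹ * g)⁻¹ = u⁻¹ * (g * x * g⁻¹) * u := by group
    rw [h4, h]
    group

theorem exists_Qn (hA : K ≤ A) (hB : K ≤ B) {x : Γ} (hx : x ∈ A ⊔ B) : ∃ n, Qn A B x n := by
  rcases nf_sup A B K hA hB x hx with h | ⟨a, ha, h, hh, rfl⟩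
  · exact ⟨0, Or.inl ⟨rfl, 1, one_mem _, by simpa using h⟩⟩
  · obtain ⟨l, h1, _, rfl⟩ := alt_list hh
    exact ⟨_, Qn_of _ 1 a l (one_mem _) ha h1 (by group)⟩

/-- **elements of finite order of an amalgam** are conjugate to elements of the factors -/
theorem tors_conj (hA : K ≤ A) (hB : K ≤ B) (halt : ∀ h, Alt A B K h → h ∉ A) {x : Γ}
    (hx : x ∈ A ⊔ B) {k : ℕ} (hk : 0 < k) (hxk : x ^ k = 1) :
    ∃ g ∈ A ⊔ B, g * x * g⁻¹ ∈ A ∨ g * x * g⁻¹ ∈ B := by
  classical
  have hex := exists_Qn hA hB hx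
  have hspec := Nat.find_spec hex
  have hmin : ∀ m, m < Nat.find hex → ¬ Qn A B x m := fun m hm => Nat.find_min hex hm
  rcases hspec with ⟨-, g, hg, h1⟩ | ⟨hpos, l, g, hg, hl, hlen, h1⟩
  · exact ⟨g, hg, Or.inl h1⟩
  by_contra hcon
  have hcon' : ∀ g ∈ A ⊔ B, g * x * g⁻¹ ∉ B := fun g hg hb => hcon ⟨g, hg, Or.inr hb⟩
  have hlne : l ≠ [] := by
    intro h
    rw [h] at hlen
    simp at hlen
    omega
  -- all entries are outside of `K`
  have hall : ∀ p ∈ l, (p.1 ∈ B ∧ p.1 ∉ K) ∧ p.2 ∈ A ∧ p.2 ∉ K := by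
    intro p hp
    obtain ⟨l1, l2, rfl⟩ := List.append_of_mem hp
    have hp' := hl p hp
    have h2 : Gd A B (l2 ++ l1) := by
      intro q hq
      refine hl q ?_
      rcases List.mem_append.1 hq with h | h
      · exact List.mem_append_right _ (List.mem_cons_of_mem _ h)
      · exact List.mem_append_left _ h
    have hl1 : Gd A B l1 := fun q hq => hl q (List.mem_append_left _ hq)
    have h3 : (pr l1)⁻¹ * g * x * ((pr l1)⁻¹ * g)⁻¹ = p.1 * p.2 * pr (l2 ++ l1) := by
      have h4 : (pr l1)⁻¹ * g * x * ((pr l1)⁻¹ * g)⁻¹ = (pr l1)⁻¹ * (g * x * g⁻¹) * pr l1 := by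
        group
      rw [h4, h1, pr_append, pr_cons, pr_append]
      group
    have hg3 : (pr l1)⁻¹ * g ∈ A ⊔ B := mul_mem (inv_mem (pr_mem hl1)) hg
    have hlen3 : (l2 ++ l1).length < Nat.find hex := by
      rw [← hlen]
      simp
      omega
    refine ⟨⟨hp'.1, fun hK => ?_⟩, hp'.2, fun hK => ?_⟩
    · exact hmin _ hlen3 (Qn_of x _ _ _ hg3 (A.mul_mem (hA hK) hp'.2) h2 h3)
    · by_cases hn : l2 ++ l1 = []
      · apply hcon' _ hg3
        rw [h3, hn]
        simpa [pr] using B.mul_mem hp'.1 (hB hK)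
      · obtain ⟨q, l', hq⟩ := List.exists_cons_of_ne_nil hn
        rw [hq] at h2 h3 hlen3
        have h5 : Gd A B ((p.1 * p.2 * q.1, q.2) :: l') := by
          intro r hr
          rcases List.mem_cons.1 hr with rfl | hr
          · have h6 := h2 q List.mem_cons_self
            exact ⟨B.mul_mem (B.mul_mem hp'.1 (hB hK)) h6.1, h6.2⟩
          · exact h2 r (List.mem_cons_of_mem _ hr)
        refine hmin ((p.1 * p.2 * q.1, q.2) :: l').length (by simpa using hlen3)
          (Or.inr ⟨by simp, _, _, hg3, h5, rfl, ?_⟩)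
        rw [h3, pr_cons, pr_cons]
        simp only [mul_assoc]
  -- the powers are alternating
  have hpow : ∀ m : ℕ, pr (List.replicate m l).flatten = (pr l) ^ m := by
    intro m
    induction m with
    | zero => simp [pr]
    | succ m ih => rw [List.replicate_succ, List.flatten_cons, pr_append, ih, pow_succ']
  have h5 : Alt A B K (pr (List.replicate k l).flatten) := by
    apply list_alt
    · intro h
      have h6 := congrArg List.length h
      simp at h6
      rcases h6 with h6 | h6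
      · omega
      · exact hlne h6
    · intro p hp
      rw [List.mem_flatten] at hp
      obtain ⟨l', hl', hp⟩ := hp
      rw [List.eq_of_mem_replicate hl'] at hp
      exact hall p hp
  rw [hpow, ← h1] at h5
  apply halt _ h5
  have h6 : (g * x * g⁻¹) ^ k = 1 := by
    rw [conj_pow, hxk]
    group
  rw [h6]
  exact A.one_mem

end tors

section gptors

variable {V : Type} {Λ : SimpleGraph V} {A : V → Type} [∀ v, Group (A v)]

/-- the elements of finite order in a graph product of finite groups have representatives in a finite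
set -/
theorem tors_rep (hA : ∀ v, Finite (A v)) (n : ℕ) : ∀ X : Set V, X.Finite → X.ncard = n →
    ∃ T : Set (GrP Λ A), T.Finite ∧ ∀ x ∈ gX Λ A X, ∀ k : ℕ, 0 < k → x ^ k = 1 →
      ∃ g ∈ gX Λ A X, g * x * g⁻¹ ∈ T := by
  induction n using Nat.strong_induction_on with
  | _ n ih =>
    intro X hX hn
    rcases X.eq_empty_or_nonempty with rfl | ⟨v, hvX⟩
    · refine ⟨{1}, Set.finite_singleton 1, fun x hx k _ _ => ⟨1, one_mem _, ?_⟩⟩
      have h2 : gX Λ A (∅ : Set V) ≤ ⊥ := gX_le fun w hw => absurd hw (Set.notMem_empty w)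
      rw [Subgroup.mem_bot.1 (h2 hx)]
      simp
    · obtain ⟨X0, hX0, hv, rfl⟩ : ∃ X0 : Set V, X0.Finite ∧ v ∉ X0 ∧ X = X0 ∪ {v} :=
        ⟨X \ {v}, hX.subset Set.sdiff_subset, fun h => h.2 rfl, by
          rw [Set.union_singleton, Set.insert_sdiff_singleton, Set.insert_eq_of_mem hvX]⟩
      have hlt0 : X0.ncard < n := by
        rw [← hn, Set.union_singleton, Set.ncard_insert_of_notMem hv hX0]
        omega
      obtain ⟨Y, hY⟩ : ∃ Y : Set V, Y = {w | w ∈ X0 ∧ Λ.Adj v w} := ⟨_, rfl⟩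
      have hYX : Y ⊆ X0 := fun w hw => by
        rw [hY] at hw
        exact hw.1
      have hYv : ∀ w ∈ Y, Λ.Adj v w := fun w hw => by
        rw [hY] at hw
        exact hw.2
      have hvY : v ∉ Y := fun h => hv (hYX h)
      have hsup : gX Λ A X0 ⊔ gX Λ A (Y ∪ {v}) = gX Λ A (X0 ∪ {v}) := by
        rw [hY]
        exact star_sup
      have hlt : Y.ncard < n := lt_of_le_of_lt (Set.ncard_le_ncard hYX hX0) hlt0
      obtain ⟨T0, hT0, h0⟩ := ih _ hlt0 X0 hX0 rfl
      obtain ⟨T1, hT1, h1⟩ := ih _ hlt Y (hX0.subset hYX) rfl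
      have hf : Finite (A v) := hA v
      refine ⟨T0 ∪ (fun p : GrP Λ A × A v => p.1 * o Λ A v p.2) '' (T1 ×ˢ Set.univ),
        hT0.union ((hT1.prod Set.finite_univ).image _), fun x hx k hk hxk => ?_⟩
      have halt := alt_not_in (gX Λ A X0) (gX Λ A (Y ∪ {v})) (gX Λ A Y) (gX_mono hYX)
        (gX_mono Set.subset_union_left)
        (univ_star hv hYX (fun w hw h => by rw [hY]; exact ⟨hw, h⟩))
        ((rt Λ A X0).prod (rt Λ A {v})) (by
          intro a ha h
          have h1 : rt Λ A X0 a = 1 := congrArg Prod.fst h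
          rwa [rt_fix ha] at h1) (by
          intro b hb h
          have h1 : rt Λ A X0 b = 1 := congrArg Prod.fst h
          have h2 : rt Λ A {v} b = 1 := congrArg Prod.snd h
          obtain ⟨y, hy, a, rfl⟩ := star_form hYv hb
          rw [map_mul, rt_o' hv, mul_one, rt_fix (gX_mono hYX hy)] at h1
          subst h1
          rw [one_mul, rt_o (Set.mem_singleton v)] at h2
          rw [one_mul, h2])
      rw [← hsup] at hx
      obtain ⟨g, hg, h2⟩ := tors_conj (gX_mono hYX) (gX_mono Set.subset_union_left) halt hx hk hxk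
      rw [hsup] at hg
      have h3 : (g * x * g⁻¹) ^ k = 1 := by
        rw [conj_pow, hxk]
        group
      rcases h2 with h2 | h2
      · obtain ⟨g', hg', h4⟩ := h0 _ h2 k hk h3
        refine ⟨g' * g, mul_mem (gX_mono Set.subset_union_left hg') hg, Or.inl ?_⟩
        have h5 : g' * g * x * (g' * g)⁻¹ = g' * (g * x * g⁻¹) * g'⁻¹ := by group
        rw [h5]
        exact h4
      · obtain ⟨y, hy, a, hya⟩ := star_form hYv h2
        have hyk : y ^ k = 1 := by
          have h4 := congrArg (rt Λ A Y) h3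
          rw [map_pow, hya, map_mul, rt_fix hy, rt_o' hvY, mul_one, map_one] at h4
          exact h4
        obtain ⟨g', hg', h4⟩ := h1 y hy k hk hyk
        refine ⟨g' * g, mul_mem (gX_mono (hYX.trans Set.subset_union_left) hg') hg,
          Or.inr ⟨(g' * y * g'⁻¹, a), ⟨h4, Set.mem_univ a⟩, ?_⟩⟩
        have h5 : g' * g * x * (g' * g)⁻¹ = g' * (g * x * g⁻¹) * g'⁻¹ := by group
        have h6 : gX Λ A Y ≤ Subgroup.centralizer {o Λ A v a} := gX_le fun w hw b => by
          rw [Subgroup.mem_centralizer_singleton_iff]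
          exact of_comm (hYv w hw).symm b a
        have h7 := Subgroup.mem_centralizer_singleton_iff.1 (h6 hg')
        show g' * y * g'⁻¹ * o Λ A v a = _
        rw [h5, hya]
        have h8 : g'⁻¹ * o Λ A v a = o Λ A v a * g'⁻¹ := by
          rw [inv_mul_eq_iff_eq_mul, ← mul_assoc, h7, mul_inv_cancel_right]
        simp only [mul_assoc]
        rw [h8]

end gptors

end Pool.Agent.N77.GK
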